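import Pool.Agent.KT3.StmtsA

/-!
KT3 squad, row PHE: support functionals.
-/

set_option autoImplicit false

open Matrix Filter Topology

namespace Pool.Agent.KT3.H81

open Pool.Agent.PFS Pool.Agent.PFJ Pool.Agent.NBT

variable {n K : ℕ}

/-- Vertices are not zero. -/
theorem phe_ne {C : Set (V n)} {w : Fin K → V n} (hw : PES C w) (i : Fin K) : w i ≠ 0 := by
  intro h
  refine hw.bd (fun j => if j = i then 0 else 1) (fun j => by split_ifs <;> norm_num)
    ⟨i, by simp⟩ ?_
  have h1 : ∑ j, (if j = i then (0 : ℝ) else 1) • w j = ∑ j, w j := by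
    refine Finset.sum_congr rfl fun j _ => ?_
    split_ifs with hj
    · rw [hj, h, smul_zero]
    · rw [one_smul]
  rw [h1]
  exact hw.sum_mem

/-- The face of a vertex. -/
theorem phe_BI {C : Set (V n)} {Γ : Subgroup (GL (Fin n) ℝ)} (h : HK C Γ K) {w : Fin K → V n}
    (hw : IsPES C Γ w) (i : Fin K) : BI C w {i} = Submodule.span ℝ {w i} := by
  have hP : PCone C := h.toCC.toPCone
  have hcl := hw.1.cl i
  have hext : Ext C (w i) := exv n C Γ h.toCC K (by have := h.three; omega) h.maxc w hw i
  unfold BI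
  rw [fS_single]
  apply le_antisymm
  · rw [Submodule.span_le]
    rintro y ⟨ε, hε, h1, h2⟩
    have hy : y ∈ closure C := by
      have e : y = (y - ε • w i) + ε • w i := by abel
      rw [e]
      exact hP.cl_add h2 (hP.cl_smul hcl hε.le)
    have h3 : ε⁻¹ • w i - y ∈ closure C := by
      have e : ε⁻¹ • w i - y = ε⁻¹ • (w i - ε • y) := by
        rw [smul_sub, smul_smul, inv_mul_cancel₀ hε.ne', one_smul]
      rw [e]
      exact hP.cl_smul h1 (by positivity)
    obtain ⟨a, ha⟩ := ext_mul hext hy h3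
    rw [ha]
    exact Submodule.smul_mem _ _ (Submodule.mem_span_singleton_self _)
  · rw [Submodule.span_le, Set.singleton_subset_iff]
    apply Submodule.subset_span
    have h0 : (0 : V n) ∈ closure C := by
      have := hP.cl_smul hcl (le_refl (0 : ℝ))
      rwa [zero_smul] at this
    refine ⟨1, one_pos, ?_, ?_⟩
    · rw [one_smul, sub_self]
      exact h0
    · rw [one_smul, sub_self]
      exact h0

theorem phe (_hFAY : FayStmt) (hWIP : WipStmt) : PheStmt := by
  intro n C Γ K h w hw i
  have hP : PCone C := h.toCC.toPCone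
  have hw0 := phe_ne hw.1 i
  have hcl := hw.1.cl i
  have hHI : HI C Γ K {i} 1 := by
    refine ⟨h, ?_⟩
    intro w' hw'
    rw [phe_BI h hw' i, finrank_span_singleton (phe_ne hw'.1 i)]
  have hBI := phe_BI h hw i
  have hWI : WI C Γ {i} 1 w := by
    refine ⟨hw, ?_, ?_, ?_⟩
    · rw [hBI, finrank_span_singleton hw0]
    · intro j hj
      rw [Finset.mem_singleton] at hj
      rw [hj, hBI]
      exact Submodule.mem_span_singleton_self _
    · intro v hv hvc
      rw [hBI, Submodule.mem_span_singleton] at hv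
      obtain ⟨c, rfl⟩ := hv
      have h1 : ∑ j, (if j = i then c else 1) • w j = c • w i + fS w {i}ᶜ := by
        unfold fS
        rw [← Finset.add_sum_erase Finset.univ _ (Finset.mem_univ i), if_pos rfl]
        congr 1
        have e : ({i}ᶜ : Finset (Fin K)) = Finset.univ.erase i := by
          ext j
          simp
        rw [e]
        refine Finset.sum_congr rfl fun j hj => ?_
        rw [if_neg (Finset.ne_of_mem_erase hj), one_smul]
      rw [← h1] at hvc
      have h2 := nng n C hP (Fin K) w hw.1 _ hvc i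
      rw [if_pos rfl] at h2
      exact hP.cl_smul hcl h2
  obtain ⟨p, hp⟩ := hWIP n C Γ K {i} 1 hHI w hWI
  obtain ⟨k, hk⟩ : ∃ k, w i k ≠ 0 := by
    by_contra hcon
    push Not at hcon
    exact hw0 (funext hcon)
  have hpx : ∀ x, ∃ c : ℝ, p x = c • w i := by
    intro x
    have h1 := hp.mem x
    rw [hBI, Submodule.mem_span_singleton] at h1
    obtain ⟨c, hc⟩ := h1
    exact ⟨c, hc.symm⟩
  have hφ : ∀ (x : V n) (c : ℝ), p x = c • w i →
      ((w i k)⁻¹ • ((LinearMap.proj k).comp p : V n →ₗ[ℝ] ℝ)) x = c := by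
    intro x c hc
    rw [LinearMap.smul_apply, LinearMap.comp_apply, hc, LinearMap.proj_apply, Pi.smul_apply,
      smul_eq_mul, smul_eq_mul]
    field_simp
  refine ⟨(w i k)⁻¹ • ((LinearMap.proj k).comp p), ?_, ?_, ?_⟩
  · intro x hx
    obtain ⟨c, hc⟩ := hpx x
    rw [hφ x c hc]
    by_contra hneg
    push Not at hneg
    have h1 := hp.pos x hx
    rw [hc] at h1
    have h2 : -(c • w i) ∈ closure C := by
      rw [← neg_smul]
      exact hP.cl_smul hcl (by linarith)
    have h3 := hP.salient _ h1 h2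
    rcases smul_eq_zero.mp h3 with h4 | h4
    · linarith
    · exact hw0 h4
  · refine hφ (w i) 1 ?_
    rw [one_smul]
    apply hp.idB
    rw [hBI]
    exact Submodule.mem_span_singleton_self _
  · intro j hj
    refine hφ (w j) 0 ?_
    rw [zero_smul, hp.ker]
    intro x hx τ hτ
    have hcx := hP.cl_smul (subset_closure hx) hτ.le
    have hjm : j ∈ ({i}ᶜ : Finset (Fin K)) := by simp [hj]
    have hf : fS w {i}ᶜ - w j ∈ closure C := by
      have e : fS w {i}ᶜ - w j = ∑ l ∈ ({i}ᶜ : Finset (Fin K)).erase j, w l := by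
        unfold fS
        rw [← Finset.add_sum_erase _ _ hjm]
        abel
      rw [e]
      exact hP.cl_sum fun l _ => hw.1.cl l
    refine ⟨1, one_pos, ?_, ?_⟩
    · rw [one_smul]
      have e : fS w {i}ᶜ + τ • x - w j = (fS w {i}ᶜ - w j) + τ • x := by abel
      rw [e]
      exact hP.cl_add hf hcx
    · rw [one_smul]
      exact hP.cl_add (hP.cl_add (fS_cl hP (fun l => hw.1.cl l) _) hcx) (hw.1.cl j)

end Pool.Agent.KT3.H81
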