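import Pool.Agent.KT3.StmtsM
import Pool.Agent.Helper13_NBT.IBF

/-!
KT3 squad, row ANF: facts on walls with a common kernel of the second pair.
-/

set_option autoImplicit false

open Matrix Filter Topology

namespace Pool.Agent.KT3.H81

open Pool.Agent.PFS Pool.Agent.PFJ Pool.Agent.NBT

theorem anf_compl : (I02ᶜ : Finset (Fin 3)) = {1} := by decide

theorem anf (hPHU : PhuStmt) (hLFM : LfmStmt) (hLFS : LfsStmt) : AnfStmt := by
  intro n C Γ d q h w N hAN φ hφ
  have hHK : HK C Γ 3 := h.toHI.toHK
  have hP : PCone C := hHK.toCC.toPCone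
  have hpes := hAN.wl.pes
  obtain ⟨hL0, hLx⟩ := hLFM n C Γ d h w hAN.wl
  have hcl : ∀ i, w i ∈ closure C := fun i => hpes.1.cl i
  have hsum : w 0 + w 1 + w 2 ∈ C := by
    have := hpes.1.sum_mem
    rwa [Fin.sum_univ_three] at this
  have pw1 : ∀ (x v : V n) (p : V n →ₗ[ℝ] V n), PJ C N x v p → p (w 1) = 0 :=
    fun x v p hp => (hp.ker _).mpr hAN.mem
  -- (1)
  have h1 : ∀ y, Pool.Agent.PCO.Sml C (w 1) y → y ∈ N := by
    intro y hy
    obtain ⟨p, hp⟩ := hAN.prj (w 0) hL0
    have hp1 := pw1 _ _ p hp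
    have hpf : p (w 0 + w 1 + w 2) = w 0 + w 2 := by
      rw [map_add, map_add, hp.fx, hp1, hp.fv, add_zero]
    have a1 : p y ∈ closure C := by
      apply cl_of_eps (f := w 0 + w 2)
      intro τ hτ
      obtain ⟨κ, _, _, h4⟩ := hy _ hsum τ hτ
      have h5 := hp.pos _ h4
      rw [map_add, map_add, map_smul, map_smul, hp1, hpf, smul_zero, zero_add] at h5
      rwa [add_comm]
    have a2 : -p y ∈ closure C := by
      apply cl_of_eps (f := w 0 + w 2)
      intro τ hτ
      obtain ⟨κ, _, h3, _⟩ := hy _ hsum τ hτ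
      have h5 := hp.pos _ h3
      rw [map_sub, map_add, map_smul, map_smul, hp1, hpf, smul_zero, zero_add] at h5
      have e : -p y + τ • (w 0 + w 2) = τ • (w 0 + w 2) - p y := by abel
      rw [e]
      exact h5
    exact (hp.ker y).mp (hP.salient _ a1 a2)
  -- (4), the functional
  have h4c : ∀ x, Lf C w x → ∀ p : V n →ₗ[ℝ] V n, PJ C N x (w 2) p → ∀ y, φ (p y) = φ y := by
    intro x hx p hp y
    obtain ⟨hWx, -, -, -, -, -, hφx⟩ := hLx x hx
    obtain ⟨hφ0, hφ'⟩ := hφx φ hφ
    have hu := (hPHU n C Γ 3 hHK (up w x) hWx.pes 0 ((φ x)⁻¹ • φ) hφ').1 (φ.comp p) (by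
      intro z hz
      exact hφ.pos _ (hp.pos z hz)) (by
      intro j hj
      have hj2 : up w x j = w j := Function.update_of_ne hj _ _
      rw [hj2, LinearMap.comp_apply]
      fin_cases j
      · exact absurd rfl hj
      · show φ (p (w 1)) = 0
        rw [pw1 _ _ p hp, map_zero]
      · show φ (p (w 2)) = 0
        rw [hp.fv]
        exact hφ.zero 2 hj) y
    have e0 : up w x 0 = x := Function.update_self _ _ _
    rw [LinearMap.comp_apply, e0, LinearMap.comp_apply, hp.fx, LinearMap.smul_apply,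
      smul_eq_mul] at hu
    rw [hu]
    field_simp
  refine ⟨h1, ?_, ?_, ?_, ?_⟩
  · intro y hy
    obtain ⟨p, hp⟩ := hAN.prj (w 0) hL0
    rw [← h4c (w 0) hL0 p hp y, (hp.ker y).mpr hy, map_zero]
  · intro x x' hx hx' hφx
    apply h1
    apply hLFS n C Γ d h w hAN.wl φ hφ
    · exact Submodule.sub_mem _ hx.mem hx'.mem
    · rw [map_sub, hφx, sub_self]
  · intro x hx p hp
    have e0 : up w x 0 = x := Function.update_self _ _ _
    have e1 : up w x 1 = w 1 := Function.update_of_ne (by decide) _ _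
    have e2 : up w x 2 = w 2 := Function.update_of_ne (by decide) _ _
    have hIB : IB C (up w x) I02 (LinearMap.range p) := by
      refine ⟨?_, ?_⟩
      · intro i hi
        rw [Finset.mem_insert, Finset.mem_singleton] at hi
        rcases hi with rfl | rfl
        · rw [e0]
          exact ⟨x, hp.fx⟩
        · rw [e2]
          exact ⟨w 2, hp.fv⟩
      · rintro u ⟨y, rfl⟩ hu
        rw [anf_compl] at hu
        have e3 : fS (up w x) {1} = w 1 := by
          rw [fS_single, e1]
        rw [e3] at hu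
        have h5 := hp.pos _ hu
        rwa [map_add, hp.idm, pw1 _ _ p hp, add_zero] at h5
    have hWx := (hLx x hx).1
    refine ⟨hIB, ?_, h4c x hx p hp, ?_⟩
    · have hr := LinearMap.finrank_range_add_finrank_ker p
      have hk : LinearMap.ker p = N := by
        ext y
        rw [LinearMap.mem_ker]
        exact hp.ker y
      rw [hk] at hr
      have hn : Module.finrank ℝ (V n) = n := by
        show Module.finrank ℝ (Fin n → ℝ) = n
        rw [Module.finrank_fin_fun]
      have := hAN.cod
      omega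
    · have h6 := ((Pool.Agent.NBT.H13.ibf n C hP 3 (up w x) hWx.pes.1).1 I02 _ hIB).1
      rw [fS_pair _ (by decide : (0 : Fin 3) ≠ 2), e0, e2] at h6
      exact h6
  · intro x x' v v' p p' hp hp' y
    have h7 : y - p' y ∈ N := by
      rw [← hp'.ker, map_sub, hp'.idm, sub_self]
    have h8 := (hp.ker _).mpr h7
    rw [map_sub] at h8
    exact (sub_eq_zero.mp h8).symm

end Pool.Agent.KT3.H81
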